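import Pool.Agent.KS6_94.LZ.C
import Pool.Agent.KS6_94.LZ.D

/-!
# Luzin sets which are unions of few meager sets: forcing and a characterization in ZFC

1. Let `κ` be any singular cardinal with `κ ^ ℵ₀ = κ`. There is a forcing notion such that it is
   forced that all cardinals are preserved, `cov(M) = κ` is singular, and there is a `κ`-Luzin set
   which is a union of fewer than `κ` meager sets. Each regular uncountable cardinal is the
   cofinality of such a `κ`.
2. (ZFC) Let `κ ≤ cov(M)` be singular, for instance `κ = cov(M)`. The following are equivalent: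
   some `κ`-Luzin set is a union of fewer than `κ` meager sets; there are a `κ`-Luzin set and a
   sequence of `cf(κ)` meager sets such that each meager set includes only boundedly many of them;
   there are a `κ`-Luzin set and a sequence of `cf(κ)` functions from `ℕ` to `ℕ` such that each
   function dominates only boundedly many of them.
3. (ZFC) If in addition `cf(κ) < 𝔟`, then no `κ`-Luzin set is a union of fewer than `κ` meager sets.
4. (ZFC) If `κ` is singular and `cf(κ)` is `𝔟` or `cf(𝔡)`, then some `κ`-Luzin set is a union of
   fewer than `κ` meager sets if and only if there is a `κ`-Luzin set.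

Outline of the proof of 2. Let `X` be a `κ`-Luzin set which is a union of few meager sets. Then the
sizes of the meager sets of the union are cofinal in `κ`, and a sequence of length `λ = cf(κ)` of them
with sizes tending to `κ` is as required. Let `M_j`, `j < λ`, be a sequence of meager sets as in the
second condition. As `λ < κ ≤ cov(M)`, some translate `w + ℚ` of `ℚ` is disjoint from all (the
`F_σ` hulls of the) `M_j`. Let `f_j` be a function such that the `1 / f_j(n)`-balls around the first
`n` points of `w + ℚ` are disjoint from the `n`-th closed set of `M_j`. If `g` dominates `f_j`, then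
`M_j` is included in a meager set which depends on `g` only. Finally let `f_j`, `j < λ`, be as in the
third condition, with `f_j` increasing, and let `X` be a `κ`-Luzin set. If the sizes of the meager
subsets of `X` are cofinal in `κ`, then a union of `λ` of them is as required. Otherwise all meager
subsets of `X` have size at most `μ < κ`. Regard `X` as a subset of the Baire space and apply the map
which cuts off all values above `f_j` to a subset of `X` of size `κ_j`. The image is included in the
compact set of the functions bounded by `f_j`. For each meager set `M` there is a function `g` such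
that the preimage of `M` under this map is meager unless `g` dominates `f_j`; so `M` meets all but
boundedly many images in at most `μ` points. Hence the union of the images, transferred to the real
line by a continuous injection, is a `κ`-Luzin set.
-/

set_option autoImplicit false

namespace Pool.Agent.Results.MP_54b694_lc.AllSingularCardinals

open Cardinal Pool.Agent.Helper669.Forcing Pool.Agent.Q307.LU
open Pool.Agent.KS6_94.LZ (covM Luzin SmallUnion MeagerSeq FunSeq bNum dNum)

/-- There is a forcing notion such that every condition forces: all cardinals are preserved, `κ` is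
singular, `cov(M) = κ`, and there is a `κ`-Luzin set which is a union of fewer than `κ` meager
sets. -/
def Forceable (κ : Cardinal.{0}) : Prop :=
  ∃ (P : Type) (_ : Preorder P), Nonempty P ∧ ∀ p : P,
    p ∈ CardinalsPreserved.{0, 0} P ∧ p ∈ SingularIs P κ ∧ p ∈ CovIs P κ ∧
      p ∈ HasLuzinUnion P κ

theorem result :
    ((∀ κ : Cardinal.{0}, κ.IsSingular → κ ^ ℵ₀ = κ → Forceable κ) ∧
      ∀ μ : Cardinal.{0}, μ.IsRegular → ℵ₀ < μ →
        ∃ κ : Cardinal.{0}, κ.IsSingular ∧ κ ^ ℵ₀ = κ ∧ κ.ord.cof = μ) ∧
    (∀ κ : Cardinal.{0}, κ.IsSingular → κ ≤ covM →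
      List.TFAE [∃ X, Luzin κ X ∧ SmallUnion κ X,
        (∃ X, Luzin κ X) ∧ MeagerSeq κ.ord.cof,
        (∃ X, Luzin κ X) ∧ FunSeq κ.ord.cof] ∧
      (κ.ord.cof < bNum → ∀ X, Luzin κ X → ¬ SmallUnion κ X)) ∧
    (∀ κ : Cardinal.{0}, κ.IsSingular → κ.ord.cof = bNum ∨ κ.ord.cof = dNum.ord.cof →
      ((∃ X, Luzin κ X) ↔ ∃ X, Luzin κ X ∧ SmallUnion κ X)) :=
  ⟨⟨fun _ h1 h2 => Pool.Agent.KS6_94.LZ.forced h1 h2,
    fun _ h1 h2 => Pool.Agent.KS6_94.LZ.exists_cardinal' h1 h2⟩,
    fun _ h1 h2 => ⟨Pool.Agent.KS6_94.LZ.tfae h1 h2, Pool.Agent.KS6_94.LZ.none_of_lt h1 h2⟩,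
    fun _ h1 h2 => Pool.Agent.KS6_94.LZ.of_cof h1 h2⟩

end Pool.Agent.Results.MP_54b694_lc.AllSingularCardinals
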